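import Pool.Agent.Results.MP_0b4a43_pr.OrbitSpan

/-!
# Finite-dimensional orbit span and vanishing increments along random walks

Let `G` be a topological group, `μ` a symmetric adapted Borel probability measure on `G` and
`f : G → ℝ` continuous with a finite dimensional orbit span. If for each `x` the increments
`f (x X_{t+1}) - f (x X_t)` tend to zero in probability, then `f` is constant. This holds in
particular if `f (x X_t)` converges almost surely for each `x`.
-/

set_option autoImplicit false

open MeasureTheory ProbabilityTheory Finset Filter Topology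
open scoped ENNReal

namespace Pool.Agent.Results.MP_7af27d_pr.VanishingIncrements

open Pool.Agent.R766.RW
open Pool.Agent.Results.MP_0b4a43_pr.OrbitSpan (orbitSpan walk IsIncrements IsSymmetric
  IsAdapted rep ev rep_ev continuous_rep constr_ev walk_eq)

/-- The real random variables `a t` tend to zero in probability. -/
def TendsToZeroInProb {Ω : Type*} {_ : MeasurableSpace Ω} (P : Measure Ω) (a : ℕ → Ω → ℝ) : Prop :=
  ∀ ε > 0, Tendsto (fun t => P {ω | ε ≤ |a t ω|}) atTop (𝓝 0)

section

variable {Ω : Type*} {mΩ : MeasurableSpace Ω} {P : Measure Ω}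

theorem tip_add {a b : ℕ → Ω → ℝ} (ha : TendsToZeroInProb P a) (hb : TendsToZeroInProb P b) :
    TendsToZeroInProb P fun t ω => a t ω + b t ω := by
  intro ε hε
  have h := (ha (ε / 2) (half_pos hε)).add (hb (ε / 2) (half_pos hε))
  rw [add_zero] at h
  refine tendsto_of_tendsto_of_tendsto_of_le_of_le tendsto_const_nhds h (fun _ => zero_le)
    fun t => ?_
  refine (measure_mono fun ω hω => ?_).trans (measure_union_le _ _)
  by_contra hcon
  simp only [Set.mem_union, Set.mem_ofPred_eq, not_or, not_le] at hcon hω
  have := abs_add_le (a t ω) (b t ω)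
  linarith [hcon.1, hcon.2]

theorem tip_smul {a : ℕ → Ω → ℝ} (ha : TendsToZeroInProb P a) (c : ℝ) :
    TendsToZeroInProb P fun t ω => c * a t ω := by
  intro ε hε
  refine tendsto_of_tendsto_of_tendsto_of_le_of_le tendsto_const_nhds
    (ha (ε / (|c| + 1)) (by positivity)) (fun _ => zero_le) fun t => ?_
  refine measure_mono fun ω hω => ?_
  simp only [Set.mem_ofPred_eq] at hω ⊢
  rw [abs_mul] at hω
  rw [div_le_iff₀ (by positivity)]
  have := abs_nonneg (a t ω)
  nlinarith

theorem tip_zero : TendsToZeroInProb P fun _ _ => 0 := by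
  intro ε hε
  have h : (fun _ : ℕ => P {_ω | ε ≤ |(0 : ℝ)|}) = fun _ => 0 := by
    funext _
    simp [not_le.2 hε]
  rw [h]
  exact tendsto_const_nhds

theorem tip_comp {a : ℕ → Ω → ℝ} (ha : TendsToZeroInProb P a) (s : ℕ) :
    TendsToZeroInProb P fun t => a (t + s) := fun ε hε =>
  (ha ε hε).comp (tendsto_add_atTop_nat s)

/-- Convergence in probability of the coordinates gives convergence of the mean of the truncated
norm. -/
theorem tip_phi [IsProbabilityMeasure P] {n : ℕ} {a : ℕ → Ω → (Fin n → ℝ)}
    (h : ∀ i, TendsToZeroInProb P fun t ω => a t ω i) :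
    Tendsto (fun t => ∫⁻ ω, phi (a t ω) ∂P) atTop (𝓝 0) := by
  rw [ENNReal.tendsto_nhds_zero]
  intro ε' hε'
  obtain ⟨ε, hε, hεε⟩ : ∃ ε : ℝ, 0 < ε ∧ ENNReal.ofReal ε ≤ ε' / 2 := by
    rcases eq_or_ne ε' ∞ with rfl | hne
    · exact ⟨1, one_pos, by simp [ENNReal.top_div]⟩
    · refine ⟨(ε' / 2).toReal, ENNReal.toReal_pos (by simpa using hε'.ne') (by
        exact ENNReal.div_ne_top hne (by simp)), ENNReal.ofReal_toReal_le⟩
  have h1 : Tendsto (fun t => ∑ i, P {ω | ε ≤ |a t ω i|}) atTop (𝓝 0) := by
    have := tendsto_finsetSum univ fun i _ => h i ε hε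
    rwa [sum_const_zero] at this
  have h2 : (0 : ℝ≥0∞) < ε' / 2 := by simpa using hε'.ne'
  filter_upwards [(ENNReal.tendsto_nhds_zero.1 h1) _ h2] with t ht
  calc ∫⁻ ω, phi (a t ω) ∂P
      ≤ ∫⁻ ω, (ENNReal.ofReal ε + (⋃ i ∈ (univ : Finset (Fin n)),
          {ω | ε ≤ |a t ω i|}).indicator 1 ω) ∂P := by
        refine lintegral_mono fun ω => ?_
        by_cases hω : ω ∈ ⋃ i ∈ (univ : Finset (Fin n)), {ω | ε ≤ |a t ω i|}
        · rw [Set.indicator_of_mem hω]
          exact (phi_le_one _).trans le_add_self
        · simp only [Set.mem_iUnion, not_exists, Set.mem_ofPred_eq, not_le] at hω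
          refine le_trans ?_ le_self_add
          refine (min_le_right _ _).trans ?_
          rw [← ofReal_norm]
          refine ENNReal.ofReal_le_ofReal ?_
          rw [pi_norm_le_iff_of_nonneg hε.le]
          exact fun i => (hω i (mem_univ i)).le
    _ = ENNReal.ofReal ε + ∫⁻ ω, (⋃ i ∈ (univ : Finset (Fin n)),
          {ω | ε ≤ |a t ω i|}).indicator 1 ω ∂P := by
        rw [lintegral_add_left measurable_const]; simp
    _ ≤ ENNReal.ofReal ε + ∑ i, P {ω | ε ≤ |a t ω i|} := by
        gcongr
        exact (lintegral_indicator_one_le _).trans (measure_biUnion_finset_le _ _)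
    _ ≤ ε' / 2 + ε' / 2 := add_le_add hεε ht
    _ = ε' := ENNReal.add_halves ε'

end

/-- **Finite-dimensional orbit span and vanishing increments.** Let `μ` be a symmetric adapted
Borel probability measure on a topological group `G`, let `U` be independent random elements of `G`
with law `μ`, and let `f : G → ℝ` be continuous with a finite dimensional orbit span. If for each
`x` the increments `f (x X_{t+1}) - f (x X_t)` tend to zero in probability, then `f` is
constant. -/
theorem result {G : Type*} [Group G] [TopologicalSpace G] [IsTopologicalGroup G]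
    [MeasurableSpace G] [BorelSpace G] (μ : Measure G) [IsProbabilityMeasure μ]
    (hsymm : IsSymmetric μ) (hadapt : IsAdapted μ)
    {Ω : Type*} {_ : MeasurableSpace Ω} (P : Measure Ω) (U : ℕ → Ω → G)
    (hU : IsIncrements μ P U) (f : G → ℝ) (hf : Continuous f)
    (hfin : FiniteDimensional ℝ (orbitSpan f))
    (hinc : ∀ x, TendsToZeroInProb P fun t ω => f (x * walk U (t + 1) ω) - f (x * walk U t ω)) :
    ∃ c, ∀ x, f x = c := by
  have := hU.prob
  have b := Module.finBasis ℝ (orbitSpan f)
  have hinv : Measurable fun g : G => g⁻¹ := measurable_inv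
  have hs : μ.map (fun g => g⁻¹) = μ := by
    refine Measure.ext fun A hA => ?_
    rw [Measure.map_apply hinv hA]
    exact hsymm A hA
  -- all functions in the span have vanishing increments
  have h1 : ∀ w ∈ orbitSpan f, TendsToZeroInProb P fun t ω => w (walk U (t + 1) ω) -
      w (walk U t ω) := by
    intro w hw
    unfold orbitSpan at hw
    induction hw using Submodule.span_induction with
    | mem x h =>
      obtain ⟨γ, rfl⟩ := h
      exact hinc γ⁻¹
    | zero =>
      have : (fun (t : ℕ) (ω : Ω) => (0 : G → ℝ) (walk U (t + 1) ω) - (0 : G → ℝ) (walk U t ω)) =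
          fun _ _ => 0 := by
        funext t ω; simp
      rw [this]
      exact tip_zero
    | add x y _ _ hx hy =>
      have : (fun t ω => (x + y) (walk U (t + 1) ω) - (x + y) (walk U t ω)) = fun t ω =>
          (x (walk U (t + 1) ω) - x (walk U t ω)) + (y (walk U (t + 1) ω) - y (walk U t ω)) := by
        funext t ω; simp only [Pi.add_apply]; ring
      rw [this]
      exact tip_add hx hy
    | smul a x _ hx =>
      have : (fun t ω => (a • x) (walk U (t + 1) ω) - (a • x) (walk U t ω)) = fun t ω =>
          a * (x (walk U (t + 1) ω) - x (walk U t ω)) := by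
        funext t ω; simp only [Pi.smul_apply, smul_eq_mul]; ring
      rw [this]
      exact tip_smul hx a
  have h2 : ∀ w ∈ orbitSpan f, ∀ s, TendsToZeroInProb P fun t ω => w (walk U (t + s) ω) -
      w (walk U t ω) := by
    intro w hw s
    induction s with
    | zero =>
      have : (fun t ω => w (walk U (t + 0) ω) - w (walk U t ω)) = fun _ _ => 0 := by
        funext t ω; simp
      rw [this]
      exact tip_zero
    | succ s ih =>
      have h3 := tip_comp (h1 w hw) s
      have : (fun t ω => w (walk U (t + (s + 1)) ω) - w (walk U t ω)) = fun t ω =>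
          (w (walk U (t + s + 1) ω) - w (walk U (t + s) ω)) +
            (w (walk U (t + s) ω) - w (walk U t ω)) := by
        funext t ω; rw [add_assoc]; ring
      rw [this]
      exact tip_add h3 ih
  have h3 := fixed_core μ hinv hs hadapt hU.meas hU.indep hU.law (rep f b)
    (continuous_rep f b hf) (ev f b 1) fun s => by
      simp only [rep_ev, mul_one, ← walk_eq]
      refine tip_phi (a := fun t ω => ev f b (walk U (t + s) ω) - ev f b (walk U t ω)) fun i => ?_
      exact h2 _ (b i).2 s
  have h4 : f ∈ orbitSpan f := Submodule.subset_span ⟨1, by funext x; simp [Pool.Agent.Results.MP_0b4a43_pr.OrbitSpan.translate]⟩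
  refine ⟨f 1, fun x => ?_⟩
  have h5 := h3 x
  rw [rep_ev, mul_one] at h5
  have h6 := constr_ev f b x ⟨f, h4⟩
  have h7 := constr_ev f b 1 ⟨f, h4⟩
  rw [h5, h7] at h6
  exact h6.symm

end Pool.Agent.Results.MP_7af27d_pr.VanishingIncrements
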